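import Pool.Agent.Lib.MP_c5a51c_co.Two

/-!
# A simplicial 2-complex which embeds in `ℝ^3` but has no linear embedding in `ℝ^4`

The vertices are `m` groups `X_j` of five base vertices and, for every function `σ` choosing a pair
`σ j` of vertices in each group, a top vertex `v_σ`; the triangles are spanned by `v_σ` and `σ j`.

* The complex embeds in `ℝ^3`: with distinct heights of the vertices, a point of the triangle
  `(σ, j)` is mapped to `(M, M₂, (M₂ - M²) (c + κ g))`, where `M` and `M₂` are the first two
  moments of the heights of the vertices with the barycentric coordinates as weights, `c` depends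
  on the pair, `κ` on `σ`, and `g ≥ 0` vanishes exactly on the edge `σ j`.
* It does not embed in the plane, since three of its triangles share an edge.
* If two top vertices have barycentric coordinates of the same signs with respect to the five
  points of `X_j` in `ℝ^4`, then there are disjoint pairs `{a, b}`, `{c, d}` in `X_j` such that the
  triangles `v a b` and `w c d` intersect, and these pairs are determined by the signs of some
  linear functions of `v`, `w` and `v ⊗ w`. The number of all sign patterns is polynomial in `m`,
  while the number of pairs `(σ, τ)` which avoid a given crossing in every group is at most `99^m`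
  of `100^m`. Hence two vertex-disjoint triangles intersect in every linear image in `ℝ^4`.
-/

set_option autoImplicit false

namespace Pool.Agent.Results.MP_c5a51c_co.EmbeddingGap

open Pool.Agent.LinEmb

/-- There is a simplicial 2-complex `C` with `a(C) = 3` and `b(C) ≥ 5`. -/
theorem result : ∃ (n : ℕ) (C : PolyComplex n),
    C.IsSimplicial ∧ C.IsTwoComplex ∧ C.a = 3 ∧ 5 ≤ C.b := by
  obtain ⟨m, hm2, hm⟩ := exists_m
  refine ⟨NN m, CC m, ?_, ?_, ?_, ?_⟩
  · rintro _ ⟨s, -, rfl⟩
    exact simplex_cell s
  · rintro _ ⟨s, ⟨σ, j, hs⟩, rfl⟩
    apply finrank_cell
    refine (Finset.card_le_card hs).trans ?_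
    rw [TriF_eq]
    exact Finset.card_le_three
  · apply le_antisymm
    · exact Nat.sInf_le embeds_three
    · apply le_csInf ⟨3, embeds_three⟩
      rintro k ⟨S, ⟨h⟩⟩
      by_contra hk
      exact not_plane hm2 (by omega) S h
  · apply le_csInf
    · exact ⟨NN m, CC m, Equiv.refl _, fun P Q => Iff.rfl⟩
    · rintro k ⟨D, hD⟩
      by_contra hk
      exact no_realization hm (by omega) (by omega) D hD

end Pool.Agent.Results.MP_c5a51c_co.EmbeddingGap
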